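import Mathlib
import Pool.Agent.H652G.Prod
import Pool.Agent.Y530.KG.Prod

/-!
# γ-sets do not raise the Hausdorff dimension of any set of reals

A stronger form of the starting result `GammaSetProducts`. There is a notion of forcing `P` such
that every condition forces the following.

* There is an uncountable set of reals satisfying `S₁(Ω, Γ)`.
* All sets of reals `{E i : i < ω₁}` satisfy `S₁(Ω, Γ)`, and every set of reals satisfying
  `S₁(Ω, Γ)` is contained in such a set.
* For every set of reals `X` satisfying `S₁(Ω, Γ)`, every set of reals `Y` and all real numbers
  `0 < s < t`, if the `s`-dimensional Hausdorff measure of `Y` is zero, then the `t`-dimensional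
  Hausdorff measure of `X × Y` is zero. So the Hausdorff dimension of `X × Y` is at most the one
  of `Y`, whatever it is.

The model is the one of `GammaSetProducts`, a finite support iteration of cofinality `ω₃` of
Hechler tree forcing and of ccc posets of size `ℵ₁` which add, for the families of `ℵ₁` reals,
sequences of finite unions of intervals which contain every member of the family from some index
on. Given `s < t` the covering of `X` which is multiplied with an interval `J` is the one with
number `j`, where `2 ^ (-j)` is about `2 ^ t * |J| ^ (t - s)`; it consists of at most `j` intervals
shorter than `J`. So the sum of the `t`-th powers of the diameters of the boxes over `J` is at most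
`|J| ^ s`.
-/

namespace Pool.Agent.Results.MP_4d8715_gt.HausdorffDimensionProducts

open Pool.Agent.Helper669.Forcing Pool.Agent.H652G Pool.Agent.H652G.Defs Pool.Agent.Y530.KG

/-- There is a notion of forcing `P` such that every condition forces: (i) there is an
uncountable set of reals satisfying `S₁(Ω, Γ)`; (ii) the product of every set of reals satisfying
`S₁(Ω, Γ)` with every set of reals of Hausdorff dimension zero has Hausdorff dimension zero;
moreover all sets `{E i : i < ω₁}` of reals satisfy `S₁(Ω, Γ)`, every set of reals satisfying
`S₁(Ω, Γ)` is contained in such a set, and for every set of reals `X` satisfying `S₁(Ω, Γ)`, every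
set of reals `Y` and all `0 < s < t` with `H ^ s (Y) = 0` we have `H ^ t (X × Y) = 0`. -/
theorem result : ∃ (P : Type) (_ : Preorder P), Nonempty P ∧
    ∀ p : P, p ∈ fand (fand (StatementI P) (StatementII P))
      (fand (fand (AllGamma P) (GammaSmall P)) (DimProd P)) :=
  ⟨PP, inferInstance, inferInstance, fun p =>
    ⟨⟨statementI p, statementII p⟩, ⟨allGamma p, gammaSmall p⟩, dimProd p⟩⟩

end Pool.Agent.Results.MP_4d8715_gt.HausdorffDimensionProducts
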